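import Pool.Agent.Helper43.Inv.Model

open scoped ENNReal

namespace Pool.Agent.Helper43.Inv

universe u

section Ring

variable {R : Type*} [Ring R]

lemma inv_sq (a b : R) (haa : a * a = 0) (hbb : b * b = 0) (haba : a * b * a = a)
    (hbab : b * a * b = b) :
    (a + b + 1 - a * b - b * a) * (a + b + 1 - a * b - b * a) = 1 := by
  have h1 : a * (a * b) = 0 := by rw [← mul_assoc, haa, zero_mul]
  have h2 : a * (b * a) = a := by rw [← mul_assoc, haba]
  have h3 : b * (a * b) = b := by rw [← mul_assoc, hbab]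
  have h4 : b * (b * a) = 0 := by rw [← mul_assoc, hbb, zero_mul]
  have h5 : a * b * b = 0 := by rw [mul_assoc, hbb, mul_zero]
  have h6 : b * a * a = 0 := by rw [mul_assoc, haa, mul_zero]
  have h7 : a * b * (a * b) = a * b := by rw [← mul_assoc, haba]
  have h8 : a * b * (b * a) = 0 := by rw [← mul_assoc, h5, zero_mul]
  have h9 : b * a * (a * b) = 0 := by rw [← mul_assoc, h6, zero_mul]
  have h10 : b * a * (b * a) = b * a := by rw [← mul_assoc, hbab]
  simp only [mul_add, add_mul, mul_sub, sub_mul, mul_one, one_mul, haa, hbb, haba, hbab,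
    h1, h2, h3, h4, h5, h6, h7, h8, h9, h10]
  abel

/-- The algebraic core: in any ring, one correction by an involution. -/
theorem core (A A' R0 P g g' : R) (hA' : A' * A = 1)
    (hR0 : R0 * R0 = 1) (hPP : P * P = P) (hg : g * g' = 1) (hg' : g' * g = 1)
    (hgP : g * P = P * g)
    (ha : P * R0 * P = 0) (hb : P * A * R0 * P = 0) (hc : P * R0 * A' * P = 0) :
    ∃ J : R, J * J = 1 ∧ P * (J * A) = P * g' * R0 ∧ J * A * (R0 * P * R0) = P * g' * R0 := by
  have hg'P : g' * P = P * g' := by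
    calc g' * P = g' * P * (g * g') := by rw [hg, mul_one]
      _ = g' * (P * g) * g' := by simp only [mul_assoc]
      _ = g' * (g * P) * g' := by rw [hgP]
      _ = (g' * g) * P * g' := by simp only [mul_assoc]
      _ = P * g' := by rw [hg', one_mul]
  -- v = P g' R0, v' = R0 g P
  have hv1 : P * g' * R0 = g' * P * R0 := by rw [hg'P]
  set v := P * g' * R0 with hv
  set w := R0 * g * P with hw
  have hw1 : w = R0 * P * g := by rw [hw, mul_assoc, hgP, ← mul_assoc]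
  have hvw : v * w = P := by
    calc v * w = P * g' * (R0 * R0) * g * P := by rw [hv, hw]; simp only [mul_assoc]
      _ = P * (g' * g) * P := by rw [hR0, mul_one]; simp only [mul_assoc]
      _ = P := by rw [hg', mul_one, hPP]
  have hwv : w * v = R0 * P * R0 := by
    calc w * v = R0 * g * (P * P) * g' * R0 := by rw [hv, hw]; simp only [mul_assoc]
      _ = R0 * (g * P) * g' * R0 := by rw [hPP]; simp only [mul_assoc]
      _ = R0 * P * (g * g') * R0 := by rw [hgP]; simp only [mul_assoc]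
      _ = R0 * P * R0 := by rw [hg, mul_one]
  have hPv : P * v = v := by rw [hv, ← mul_assoc, ← mul_assoc, hPP]
  have hwP : w * P = w := by rw [hw, mul_assoc, hPP]
  have hvv : v * v = 0 := by
    calc v * v = g' * P * R0 * (P * g' * R0) := by rw [← hv1]
      _ = g' * (P * R0 * P) * g' * R0 := by simp only [mul_assoc]
      _ = 0 := by rw [ha, mul_zero, zero_mul, zero_mul]
  have hwAw : w * A * w = 0 := by
    calc w * A * w = R0 * g * P * A * (R0 * P * g) := by rw [← hw1, ← hw]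
      _ = R0 * g * (P * A * R0 * P) * g := by simp only [mul_assoc]
      _ = 0 := by rw [hb, mul_zero, zero_mul]
  have hvAv : v * A' * v = 0 := by
    calc v * A' * v = g' * P * R0 * A' * (P * g' * R0) := by rw [← hv1]
      _ = g' * (P * R0 * A' * P) * g' * R0 := by simp only [mul_assoc]
      _ = 0 := by rw [hc, mul_zero, zero_mul, zero_mul]
  let a := A * w
  let b := v * A'
  have hba : b * a = P := by
    show v * A' * (A * w) = P
    calc v * A' * (A * w) = v * (A' * A) * w := by simp only [mul_assoc]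
      _ = P := by rw [hA', mul_one, hvw]
  have haa : a * a = 0 := by
    show A * w * (A * w) = 0
    calc A * w * (A * w) = A * (w * A * w) := by simp only [mul_assoc]
      _ = 0 := by rw [hwAw, mul_zero]
  have hbb : b * b = 0 := by
    show v * A' * (v * A') = 0
    calc v * A' * (v * A') = (v * A' * v) * A' := by simp only [mul_assoc]
      _ = 0 := by rw [hvAv, zero_mul]
  have haP : a * P = a := by
    show A * w * P = A * w
    rw [mul_assoc, hwP]
  have hPb : P * b = b := by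
    show P * (v * A') = v * A'
    rw [← mul_assoc, hPv]
  have haba : a * b * a = a := by rw [mul_assoc, hba, haP]
  have hbab : b * a * b = b := by rw [hba, hPb]
  have hPa : P * a = 0 := by rw [← hba, mul_assoc, haa, mul_zero]
  have hbA : b * A = v := by
    show v * A' * A = v
    rw [mul_assoc, hA', mul_one]
  refine ⟨a + b + 1 - a * b - b * a, inv_sq a b haa hbb haba hbab, ?_, ?_⟩
  · have h1 : P * (a * b) = 0 := by rw [← mul_assoc, hPa, zero_mul]
    have h2 : P * (b * a) = P := by rw [hba, hPP]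
    have h3 : P * (a + b + 1 - a * b - b * a) = b := by
      simp only [mul_add, mul_sub, mul_one, hPa, hPb, h1, h2]
      abel
    rw [← mul_assoc, h3, hbA]
  · have h0 : A * (R0 * P * R0) = a * v := by
      rw [← hwv, ← mul_assoc]
    have h1 : a * (a * v) = 0 := by rw [← mul_assoc, haa, zero_mul]
    have h2 : b * (a * v) = v := by rw [← mul_assoc, hba, hPv]
    have h3 : a * b * (a * v) = a * v := by rw [← mul_assoc, haba]
    have h4 : b * a * (a * v) = 0 := by rw [hba, ← mul_assoc, hPa, zero_mul]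
    rw [mul_assoc, h0]
    simp only [add_mul, sub_mul, one_mul, h1, h2, h3, h4]
    abel

end Ring

variable {K : Type u} [NormedAddCommGroup K] [InnerProductSpace ℂ K]

/-- projection killing coordinate `k` -/
noncomputable def Q (k : ℤ) : Z2 K →L[ℂ] Z2 K :=
  op (Equiv.refl ℤ) (fun n => if n = k then 0 else 1) 1 (by
    intro n
    split_ifs
    · simp
    · exact ContinuousLinearMap.norm_id_le)

/-- swap of coordinates 0 and 1 -/
noncomputable def R1 : Z2 K →L[ℂ] Z2 K :=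
  op (Equiv.swap 0 1) (fun _ => 1) 1 (fun _ => ContinuousLinearMap.norm_id_le)

/-- the forward shift -/
noncomputable def U : Z2 K →L[ℂ] Z2 K :=
  op (Equiv.subRight 1) (fun _ => 1) 1 (fun _ => ContinuousLinearMap.norm_id_le)

/-- the backward shift -/
noncomputable def U' : Z2 K →L[ℂ] Z2 K :=
  op (Equiv.addRight 1) (fun _ => 1) 1 (fun _ => ContinuousLinearMap.norm_id_le)

lemma Q_apply (k : ℤ) (f : Z2 K) (n : ℤ) :
    (Q k f : ∀ _ : ℤ, K) n = if n = k then 0 else f n := by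
  show (if n = k then (0 : K →L[ℂ] K) else 1) (f n) = _
  split_ifs <;> simp

lemma R1_apply (f : Z2 K) (n : ℤ) :
    (R1 f : ∀ _ : ℤ, K) n = f (Equiv.swap 0 1 n) := rfl

lemma U_apply (f : Z2 K) (n : ℤ) :
    (U f : ∀ _ : ℤ, K) n = f (n - 1) := rfl

lemma U'_apply (f : Z2 K) (n : ℤ) :
    (U' f : ∀ _ : ℤ, K) n = f (n + 1) := rfl

lemma R1_sq : (R1 : Z2 K →L[ℂ] Z2 K) * R1 = 1 := by
  apply ext_op
  intro f n
  show f (Equiv.swap 0 1 (Equiv.swap 0 1 n)) = f n
  rw [Equiv.swap_apply_self]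

lemma UU' : (U : Z2 K →L[ℂ] Z2 K) * U' = 1 := by
  apply ext_op
  intro f n
  show f (n - 1 + 1) = f n
  rw [sub_add_cancel]

lemma U'U : (U' : Z2 K →L[ℂ] Z2 K) * U = 1 := by
  apply ext_op
  intro f n
  show f (n + 1 - 1) = f n
  rw [add_sub_cancel_right]

lemma Q_sq (k : ℤ) : (Q k : Z2 K →L[ℂ] Z2 K) * Q k = Q k := by
  apply ext_op
  intro f n
  show (Q k (Q k f) : ∀ _ : ℤ, K) n = _
  rw [Q_apply, Q_apply]
  split_ifs <;> rfl

lemma R1_Q : (R1 : Z2 K →L[ℂ] Z2 K) * Q 0 = Q 1 * R1 := by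
  apply ext_op
  intro f n
  show (Q 0 f : ∀ _ : ℤ, K) (Equiv.swap 0 1 n) = (Q 1 (R1 f) : ∀ _ : ℤ, K) n
  rw [Q_apply, Q_apply, R1_apply]
  by_cases h : n = 1
  · subst h
    simp
  · rw [if_neg h, if_neg]
    intro h2
    apply h
    have := congrArg (Equiv.swap (0 : ℤ) 1) h2
    simpa using this

lemma U_Q : (U : Z2 K →L[ℂ] Z2 K) * Q 0 = Q 1 * U := by
  apply ext_op
  intro f n
  show (Q 0 f : ∀ _ : ℤ, K) (n - 1) = (Q 1 (U f) : ∀ _ : ℤ, K) n
  rw [Q_apply, Q_apply, U_apply]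
  by_cases h : n = 1
  · subst h
    simp
  · rw [if_neg h, if_neg]
    omega

/-- In the model `ℓ²(ℤ; K)`: five involutions. -/
theorem model_five (A : (Z2 K →L[ℂ] Z2 K)ˣ) (R0 : Z2 K →L[ℂ] Z2 K) (hR0 : R0 * R0 = 1)
    (ha : Q 1 * R0 * Q 1 = 0) (hb : Q 1 * (A : Z2 K →L[ℂ] Z2 K) * R0 * Q 1 = 0)
    (hc : Q 1 * R0 * ((A⁻¹ : (Z2 K →L[ℂ] Z2 K)ˣ) : Z2 K →L[ℂ] Z2 K) * Q 1 = 0) :
    ∃ T : Fin 5 → (Z2 K →L[ℂ] Z2 K)ˣ, (∀ i, T i * T i = 1) ∧
      A = T 0 * T 1 * T 2 * T 3 * T 4 := by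
  -- g = R1 U', g' = U R1
  have hg : (R1 * U' : Z2 K →L[ℂ] Z2 K) * (U * R1) = 1 := by
    calc (R1 * U' : Z2 K →L[ℂ] Z2 K) * (U * R1) = R1 * (U' * U) * R1 := by
          simp only [mul_assoc]
      _ = 1 := by rw [U'U, mul_one, R1_sq]
  have hg' : (U * R1 : Z2 K →L[ℂ] Z2 K) * (R1 * U') = 1 := by
    calc (U * R1 : Z2 K →L[ℂ] Z2 K) * (R1 * U') = U * (R1 * R1) * U' := by
          simp only [mul_assoc]
      _ = 1 := by rw [R1_sq, mul_one, UU']
  have hU'Q : (U' : Z2 K →L[ℂ] Z2 K) * Q 1 = Q 0 * U' := by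
    calc (U' : Z2 K →L[ℂ] Z2 K) * Q 1 = U' * (Q 1 * (U * U')) := by rw [UU', mul_one]
      _ = U' * (Q 1 * U) * U' := by simp only [mul_assoc]
      _ = U' * (U * Q 0) * U' := by rw [U_Q]
      _ = (U' * U) * Q 0 * U' := by simp only [mul_assoc]
      _ = Q 0 * U' := by rw [U'U, one_mul]
  have hgP : (R1 * U' : Z2 K →L[ℂ] Z2 K) * Q 1 = Q 1 * (R1 * U') := by
    rw [mul_assoc, hU'Q, ← mul_assoc, R1_Q, mul_assoc]
  obtain ⟨J, hJ, hJ1, hJ2⟩ := core (A : Z2 K →L[ℂ] Z2 K)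
    ((A⁻¹ : (Z2 K →L[ℂ] Z2 K)ˣ) : Z2 K →L[ℂ] Z2 K) R0 (Q 1) (R1 * U') (U * R1)
    A.inv_mul hR0 (Q_sq 1) hg hg' hgP ha hb hc
  let uJ : (Z2 K →L[ℂ] Z2 K)ˣ := ⟨J, J, hJ, hJ⟩
  let uR0 : (Z2 K →L[ℂ] Z2 K)ˣ := ⟨R0, R0, hR0, hR0⟩
  let uR1 : (Z2 K →L[ℂ] Z2 K)ˣ := ⟨R1, R1, R1_sq, R1_sq⟩
  let S : (Z2 K →L[ℂ] Z2 K)ˣ := uJ * A * uR0 * uR1
  have hS1 : (Q 1 : Z2 K →L[ℂ] Z2 K) * S.1 = Q 1 * U := by
    calc (Q 1 : Z2 K →L[ℂ] Z2 K) * S.1 = (Q 1 * (J * A.1)) * R0 * R1 := by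
          rw [show S.1 = J * A.1 * R0 * R1 from rfl]; simp only [mul_assoc]
      _ = Q 1 * U * R1 * (R0 * R0) * R1 := by rw [hJ1]; simp only [mul_assoc]
      _ = Q 1 * U * (R1 * R1) := by rw [hR0, mul_one]; simp only [mul_assoc]
      _ = Q 1 * U := by rw [R1_sq, mul_one]
  have hS2 : S.1 * (Q 0 : Z2 K →L[ℂ] Z2 K) = Q 1 * U := by
    calc S.1 * (Q 0 : Z2 K →L[ℂ] Z2 K) = J * A.1 * R0 * (R1 * Q 0) := by
          rw [show S.1 = J * A.1 * R0 * R1 from rfl]; simp only [mul_assoc]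
      _ = J * A.1 * R0 * ((R0 * R0) * (Q 1 * R1)) := by rw [R1_Q, hR0, one_mul]
      _ = J * A.1 * (R0 * R0) * R0 * (Q 1 * R1) := by simp only [mul_assoc]
      _ = J * A.1 * R0 * Q 1 * (R0 * R0) * R1 := by
          rw [hR0, mul_one, mul_one]; simp only [mul_assoc]
      _ = (J * A.1 * (R0 * Q 1 * R0)) * R0 * R1 := by simp only [mul_assoc]
      _ = Q 1 * U * R1 * (R0 * R0) * R1 := by rw [hJ2]; simp only [mul_assoc]
      _ = Q 1 * U * (R1 * R1) := by rw [hR0, mul_one]; simp only [mul_assoc]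
      _ = Q 1 * U := by rw [R1_sq, mul_one]
  obtain ⟨F, G, hF, hG, hFG⟩ := shift_prod S (by
    intro f n hn
    have h1 := congrArg (fun T : Z2 K →L[ℂ] Z2 K => (T f : ∀ _ : ℤ, K) n) hS1
    have h2 : (Q 1 ((S : Z2 K →L[ℂ] Z2 K) f) : ∀ _ : ℤ, K) n = (Q 1 (U f) : ∀ _ : ℤ, K) n := h1
    rw [Q_apply, Q_apply, if_neg hn, if_neg hn, U_apply] at h2
    exact h2) (by
    intro f hf
    have hf2 : Q 0 f = f := by
      apply lp.ext
      funext n
      rw [Q_apply]
      split_ifs with h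
      · rw [h, hf]
      · rfl
    have h1 := congrArg (fun T : Z2 K →L[ℂ] Z2 K => (T f : ∀ _ : ℤ, K) 1) hS2
    have h2 : ((S : Z2 K →L[ℂ] Z2 K) (Q 0 f) : ∀ _ : ℤ, K) 1 = (Q 1 (U f) : ∀ _ : ℤ, K) 1 := h1
    rw [hf2, Q_apply, if_pos rfl] at h2
    exact h2)
  let uF : (Z2 K →L[ℂ] Z2 K)ˣ := ⟨F, F, hF, hF⟩
  let uG : (Z2 K →L[ℂ] Z2 K)ˣ := ⟨G, G, hG, hG⟩
  have huJ : uJ * uJ = 1 := Units.ext hJ
  have huR0 : uR0 * uR0 = 1 := Units.ext hR0
  have huR1 : uR1 * uR1 = 1 := Units.ext R1_sq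
  have huF : uF * uF = 1 := Units.ext hF
  have huG : uG * uG = 1 := Units.ext hG
  have hFGS : uF * uG = S := Units.ext hFG
  refine ⟨![uJ, uF, uG, uR1, uR0], ?_, ?_⟩
  · intro i
    fin_cases i
    · exact huJ
    · exact huF
    · exact huG
    · exact huR1
    · exact huR0
  · show A = uJ * uF * uG * uR1 * uR0
    have : uJ * uF * uG * uR1 * uR0 = uJ * (uF * uG) * uR1 * uR0 := by
      simp only [mul_assoc]
    rw [this, hFGS]
    show A = uJ * (uJ * A * uR0 * uR1) * uR1 * uR0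
    calc A = (uJ * uJ) * A * uR0 * (uR1 * uR1) * uR0 := by
          rw [huJ, huR1, one_mul, mul_one, mul_assoc, huR0, mul_one]
      _ = uJ * (uJ * A * uR0 * uR1) * uR1 * uR0 := by simp only [mul_assoc]

end Pool.Agent.Helper43.Inv
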