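import Pool.Agent.Helper43.Inv.Algebra

open scoped ENNReal Cardinal

namespace Pool.Agent.Helper43.Inv

universe u

variable {H : Type u} [NormedAddCommGroup H] [InnerProductSpace ℂ H] [CompleteSpace H]

/-- admissible sets of pairs -/
def Good (A B : H →L[ℂ] H) (S : Set (H × H)) : Prop :=
  (∀ p ∈ S, ‖p.1‖ = 1 ∧ ‖p.2‖ = 1) ∧
  (∀ p ∈ S, ∀ q ∈ S, p ≠ q → inner ℂ p.1 q.1 = 0 ∧ inner ℂ p.2 q.2 = 0) ∧
  (∀ p ∈ S, ∀ q ∈ S, inner ℂ p.1 q.2 = 0 ∧ inner ℂ q.2 (A p.1) = 0 ∧ inner ℂ p.1 (B q.2) = 0)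

/-- six vectors attached to a pair -/
def six (A B : H →L[ℂ] H) (p : H × H) : Set H :=
  {p.1, p.2, A p.1, (ContinuousLinearMap.adjoint A) p.2, B p.2,
    (ContinuousLinearMap.adjoint B) p.1}

lemma six_finite (A B : H →L[ℂ] H) (p : H × H) : (six A B p).Finite := by
  unfold six
  exact Set.toFinite _

lemma exists_maximal_good (A B : H →L[ℂ] H) :
    ∃ S : Set (H × H), Maximal (· ∈ {S | Good A B S}) S := by
  apply zorn_subset
  intro c hc hchain
  refine ⟨⋃₀ c, ?_, fun s hs => Set.subset_sUnion_of_mem hs⟩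
  have key : ∀ p ∈ ⋃₀ c, ∀ q ∈ ⋃₀ c, ∃ s ∈ c, p ∈ s ∧ q ∈ s := by
    rintro p ⟨s, hs, hps⟩ q ⟨t, ht, hqt⟩
    rcases hchain.total hs ht with h | h
    · exact ⟨t, ht, h hps, hqt⟩
    · exact ⟨s, hs, hps, h hqt⟩
  refine ⟨?_, ?_, ?_⟩
  · intro p hp
    obtain ⟨s, hs, hps, -⟩ := key p hp p hp
    exact (hc hs).1 p hps
  · intro p hp q hq hpq
    obtain ⟨s, hs, hps, hqs⟩ := key p hp q hq
    exact (hc hs).2.1 p hps q hqs hpq
  · intro p hp q hq
    obtain ⟨s, hs, hps, hqs⟩ := key p hp q hq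
    exact (hc hs).2.2 p hps q hqs

lemma orth_of_gens {A B : H →L[ℂ] H} {S : Set (H × H)} {x : H}
    (hx : x ∈ (Submodule.span ℂ (⋃ p ∈ S, six A B p))ᗮ) {p : H × H} (hp : p ∈ S) {g : H}
    (hg : g ∈ six A B p) : inner ℂ g x = 0 := by
  rw [Submodule.mem_orthogonal] at hx
  apply hx
  apply Submodule.subset_span
  exact Set.mem_biUnion hp hg

lemma finite_orth (A B : H →L[ℂ] H) (S : Set (H × H))
    (hS : Maximal (· ∈ {S | Good A B S}) S) :
    FiniteDimensional ℂ (Submodule.span ℂ (⋃ p ∈ S, six A B p))ᗮ := by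
  by_contra hfin
  set Z := Submodule.span ℂ (⋃ p ∈ S, six A B p) with hZ
  have hne : ∃ x ∈ Zᗮ, x ≠ 0 := by
    by_contra hcon
    push Not at hcon
    apply hfin
    have : Zᗮ = ⊥ := by
      rw [Submodule.eq_bot_iff]
      exact hcon
    rw [this]
    infer_instance
  obtain ⟨x, hx, hx0⟩ := hne
  set e0 : H := ((‖x‖ : ℂ)⁻¹) • x with he0
  have hnx : ‖x‖ ≠ 0 := norm_ne_zero_iff.2 hx0
  have he0Z : e0 ∈ Zᗮ := Submodule.smul_mem _ _ hx
  have he0n : ‖e0‖ = 1 := by
    rw [he0, norm_smul, norm_inv, Complex.norm_real, norm_norm, inv_mul_cancel₀ hnx]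
  -- a second vector
  let L : H →ₗ[ℂ] (Fin 3 → ℂ) := LinearMap.pi
    ![(innerSL ℂ e0).toLinearMap, (innerSL ℂ (A e0)).toLinearMap,
      (innerSL ℂ ((ContinuousLinearMap.adjoint B) e0)).toLinearMap]
  have hL : ∃ y ∈ Zᗮ, y ≠ 0 ∧ L y = 0 := by
    by_contra hcon
    push Not at hcon
    apply hfin
    have hinj : Function.Injective (L.comp Zᗮ.subtype) := by
      rw [← LinearMap.ker_eq_bot, LinearMap.ker_eq_bot']
      intro m hm
      by_contra hm0
      exact hcon m m.2 (fun h => hm0 (Subtype.ext h)) hm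
    exact FiniteDimensional.of_injective _ hinj
  obtain ⟨y, hy, hy0, hLy⟩ := hL
  have hLy0 : inner ℂ e0 y = 0 := congrFun hLy 0
  have hLy1 : inner ℂ (A e0) y = 0 := congrFun hLy 1
  have hLy2 : inner ℂ ((ContinuousLinearMap.adjoint B) e0) y = 0 := congrFun hLy 2
  set f0 : H := ((‖y‖ : ℂ)⁻¹) • y with hf0
  have hny : ‖y‖ ≠ 0 := norm_ne_zero_iff.2 hy0
  have hf0Z : f0 ∈ Zᗮ := Submodule.smul_mem _ _ hy
  have hf0n : ‖f0‖ = 1 := by
    rw [hf0, norm_smul, norm_inv, Complex.norm_real, norm_norm, inv_mul_cancel₀ hny]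
  have h0 : inner ℂ e0 f0 = 0 := by rw [hf0, inner_smul_right, hLy0, mul_zero]
  have h1 : inner ℂ (A e0) f0 = 0 := by rw [hf0, inner_smul_right, hLy1, mul_zero]
  have h2 : inner ℂ ((ContinuousLinearMap.adjoint B) e0) f0 = 0 := by
    rw [hf0, inner_smul_right, hLy2, mul_zero]
  -- relations with old pairs
  have ge : ∀ p ∈ S, ∀ g ∈ six A B p, inner ℂ g e0 = 0 := fun p hp g hg =>
    orth_of_gens he0Z hp hg
  have gf : ∀ p ∈ S, ∀ g ∈ six A B p, inner ℂ g f0 = 0 := fun p hp g hg =>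
    orth_of_gens hf0Z hp hg
  have hgood : Good A B (insert (e0, f0) S) := by
    obtain ⟨g1, g2, g3⟩ := hS.1
    refine ⟨?_, ?_, ?_⟩
    · intro p hp
      rcases Set.mem_insert_iff.1 hp with rfl | hp
      · exact ⟨he0n, hf0n⟩
      · exact g1 p hp
    · intro p hp q hq hpq
      rcases Set.mem_insert_iff.1 hp with rfl | hp <;>
        rcases Set.mem_insert_iff.1 hq with rfl | hq
      · exact absurd rfl hpq
      · refine ⟨?_, ?_⟩
        · exact inner_eq_zero_symm.1 (ge q hq _ (by simp [six]))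
        · exact inner_eq_zero_symm.1 (gf q hq _ (by simp [six]))
      · refine ⟨?_, ?_⟩
        · exact (ge p hp _ (by simp [six]))
        · exact (gf p hp _ (by simp [six]))
      · exact g2 p hp q hq hpq
    · intro p hp q hq
      rcases Set.mem_insert_iff.1 hp with rfl | hp <;>
        rcases Set.mem_insert_iff.1 hq with rfl | hq
      · refine ⟨h0, inner_eq_zero_symm.1 h1, ?_⟩
        show inner ℂ e0 (B f0) = 0
        rw [← ContinuousLinearMap.adjoint_inner_left]
        exact h2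
      · refine ⟨inner_eq_zero_symm.1 (ge q hq _ (by simp [six])), ?_,
          inner_eq_zero_symm.1 (ge q hq _ (by simp [six]))⟩
        show inner ℂ q.2 (A e0) = 0
        rw [← ContinuousLinearMap.adjoint_inner_left]
        exact ge q hq _ (by simp [six])
      · refine ⟨gf p hp _ (by simp [six]), inner_eq_zero_symm.1 (gf p hp _ (by simp [six])), ?_⟩
        show inner ℂ p.1 (B f0) = 0
        rw [← ContinuousLinearMap.adjoint_inner_left]
        exact gf p hp _ (by simp [six])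
      · exact g3 p hp q hq
  have hle : insert (e0, f0) S ≤ S := hS.2 hgood (Set.subset_insert _ _)
  have hmem : (e0, f0) ∈ S := hle (Set.mem_insert _ _)
  have : inner ℂ e0 e0 = (0 : ℂ) := ge (e0, f0) hmem e0 (by simp [six])
  rw [inner_self_eq_zero] at this
  rw [this, norm_zero] at he0n
  exact zero_ne_one he0n

lemma countable_of_orthonormal {w : Set H} (hw : Orthonormal ℂ ((↑) : w → H)) (g : H) :
    {x : w | inner ℂ (x : H) g ≠ 0}.Countable := by
  have h := (hw.inner_products_summable (x := g)).countable_support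
  refine h.mono ?_
  intro x hx
  simp only [Function.mem_support, ne_eq, Set.mem_ofPred_eq] at hx ⊢
  intro h2
  apply hx
  have := pow_eq_zero_iff (two_ne_zero) |>.1 h2
  exact norm_eq_zero.1 this

lemma card_bound (hH : ¬ FiniteDimensional ℂ H) (A B : H →L[ℂ] H) (S : Set (H × H))
    (hS : Maximal (· ∈ {S | Good A B S}) S) :
    Infinite S ∧ ∀ w : Set H, Orthonormal ℂ ((↑) : w → H) → #w ≤ #S := by
  set Z := Submodule.span ℂ (⋃ p ∈ S, six A B p) with hZ
  have hfin : FiniteDimensional ℂ Zᗮ := finite_orth A B S hS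
  have hinf : Infinite S := by
    by_contra hcon
    have hSf : S.Finite := Set.not_infinite.1 (fun h => hcon h.to_subtype)
    apply hH
    have hG : (⋃ p ∈ S, six A B p).Finite := hSf.biUnion (fun p _ => six_finite A B p)
    have hZf : FiniteDimensional ℂ Z := FiniteDimensional.span_of_finite ℂ hG
    have htop : Z ⊔ Zᗮ = ⊤ := Submodule.sup_orthogonal_of_hasOrthogonalProjection
    have : FiniteDimensional ℂ (Z ⊔ Zᗮ : Submodule ℂ H) := inferInstance
    rw [htop] at this
    exact (LinearEquiv.finiteDimensional (Submodule.topEquiv : (⊤ : Submodule ℂ H) ≃ₗ[ℂ] H))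
  refine ⟨hinf, ?_⟩
  intro w hw
  obtain ⟨F, hF⟩ : ∃ F : Finset H, Submodule.span ℂ (F : Set H) = Zᗮ :=
    (Submodule.fg_iff_finiteDimensional _).2 hfin
  let W : S → Set w := fun p => ⋃ g ∈ six A B p.1, {x : w | inner ℂ (x : H) g ≠ 0}
  let W' : Set w := ⋃ g ∈ (F : Set H), {x : w | inner ℂ (x : H) g ≠ 0}
  have hW : ∀ p, (W p).Countable := fun p =>
    (six_finite A B p.1).countable.biUnion (fun g _ => countable_of_orthonormal hw g)
  have hW' : W'.Countable :=
    F.finite_toSet.countable.biUnion (fun g _ => countable_of_orthonormal hw g)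
  have hcover : (Set.univ : Set w) ⊆ (⋃ p, W p) ∪ W' := by
    intro x _
    by_contra hx
    simp only [Set.mem_union, Set.mem_iUnion, W, W', not_or, not_exists,
      Set.mem_ofPred_eq, not_not] at hx
    obtain ⟨hx1, hx2⟩ := hx
    have hxZ : (x : H) ∈ Zᗮ := by
      rw [hZ, Submodule.mem_orthogonal]
      intro u hu
      induction hu using Submodule.span_induction with
      | mem u hu =>
        obtain ⟨p, hp, hg⟩ := Set.mem_iUnion₂.1 hu
        exact inner_eq_zero_symm.1 (hx1 ⟨p, hp⟩ u hg)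
      | zero => exact inner_zero_left _
      | add a b _ _ ha hb => rw [inner_add_left, ha, hb, add_zero]
      | smul a b _ hb => rw [inner_smul_left, hb, mul_zero]
    have hxx : inner ℂ (x : H) (x : H) = 0 := by
      have : ∀ u ∈ Zᗮ, inner ℂ (x : H) u = 0 := by
        intro u hu
        rw [← hF] at hu
        induction hu using Submodule.span_induction with
        | mem u hu => exact hx2 u hu
        | zero => exact inner_zero_right _
        | add a b _ _ ha hb => rw [inner_add_right, ha, hb, add_zero]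
        | smul a b _ hb => rw [inner_smul_right, hb, mul_zero]
      exact this _ hxZ
    rw [inner_self_eq_zero] at hxx
    have := hw.1 x
    rw [hxx, norm_zero] at this
    exact zero_ne_one this
  have haleph : ℵ₀ ≤ #S := Cardinal.aleph0_le_mk S
  calc #w = #(Set.univ : Set w) := Cardinal.mk_univ.symm
    _ ≤ #((⋃ p, W p) ∪ W' : Set w) := Cardinal.mk_le_mk_of_subset hcover
    _ ≤ #(⋃ p, W p) + #W' := Cardinal.mk_union_le _ _
    _ ≤ #S * ℵ₀ + ℵ₀ := by
        refine add_le_add ?_ (Cardinal.le_aleph0_iff_set_countable.2 hW')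
        refine (Cardinal.mk_iUnion_le W).trans ?_
        exact mul_le_mul' le_rfl (ciSup_le' fun p => Cardinal.le_aleph0_iff_set_countable.2 (hW p))
    _ ≤ #S := by
        rw [Cardinal.mul_eq_left haleph haleph Cardinal.aleph0_ne_zero]
        rw [Cardinal.add_eq_left haleph haleph]

end Pool.Agent.Helper43.Inv
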