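import Pool.Agent.Helper43.Inv.Geom

open scoped ENNReal Cardinal

namespace Pool.Agent.Helper43.Inv

universe u

variable {H : Type u} [NormedAddCommGroup H] [InnerProductSpace ℂ H]

theorem five_of_data {KS : Type u} [NormedAddCommGroup KS] [InnerProductSpace ℂ KS]
    {K : Type u} [NormedAddCommGroup K] [InnerProductSpace ℂ K]
    (A : (H →L[ℂ] H)ˣ) (a b : KS →L[ℂ] H) (a' b' : H →L[ℂ] KS)
    (h1 : ∀ y, a' (a y) = y) (h2 : ∀ y, b' (b y) = y) (h3 : ∀ y, a' (b y) = 0)
    (h4 : ∀ y, b' (a y) = 0) (h5 : ∀ y, b' (A.1 (a y)) = 0)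
    (h6 : ∀ y, a' (A.2 (b y)) = 0) (Φ : H ≃L[ℂ] Z2 K)
    (hΦ : ∀ x, Φ (b (b' x)) = Q 1 (Φ x)) :
    ∃ T : Fin 5 → (H →L[ℂ] H)ˣ, (∀ i, T i * T i = 1) ∧
      A = T 0 * T 1 * T 2 * T 3 * T 4 := by
  let ψ : (H →L[ℂ] H) ≃A[ℂ] (Z2 K →L[ℂ] Z2 K) := Φ.conjContinuousAlgEquiv
  let R0 : H →L[ℂ] H := a ∘L b' + b ∘L a' + 1 - a ∘L a' - b ∘L b'
  let P : H →L[ℂ] H := b ∘L b'
  have hR0x : ∀ x, R0 x = a (b' x) + b (a' x) + x - a (a' x) - b (b' x) := fun x => rfl
  have hPx : ∀ x, P x = b (b' x) := fun x => rfl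
  have hR0 : R0 * R0 = 1 := by
    ext x
    show R0 (R0 x) = x
    rw [hR0x (R0 x), hR0x x]
    simp only [map_add, map_sub, h1, h2, h3, h4, map_zero]
    abel
  have hPR : P * R0 * P = 0 := by
    ext x
    show P (R0 (P x)) = 0
    rw [hPx (R0 (P x)), hR0x, hPx]
    simp only [map_add, map_sub, h1, h2, h3, h4, map_zero]
    abel
  have hPAR : P * A.1 * R0 * P = 0 := by
    ext x
    show P (A.1 (R0 (P x))) = 0
    rw [hPx (A.1 (R0 (P x))), hR0x, hPx]
    simp only [map_add, map_sub, h1, h2, h3, h4, h5, map_zero]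
    abel
  have hPRA : P * R0 * A.2 * P = 0 := by
    ext x
    show P (R0 (A.2 (P x))) = 0
    rw [hPx (R0 (A.2 (P x))), hR0x, hPx]
    simp only [map_add, map_sub, h1, h2, h3, h4, h6, map_zero]
    abel
  have hQ : (Q 1 : Z2 K →L[ℂ] Z2 K) = ψ P := by
    ext1 z
    show Q 1 z = Φ (P (Φ.symm z))
    rw [hPx, hΦ, ContinuousLinearEquiv.apply_symm_apply]
  let A2 : (Z2 K →L[ℂ] Z2 K)ˣ := Units.map (ψ : (H →L[ℂ] H) →* (Z2 K →L[ℂ] Z2 K)) A
  have hA2 : A2.1 = ψ A.1 := rfl
  have hA2' : (A2⁻¹).1 = ψ A.2 := rfl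
  obtain ⟨T, hT, hAT⟩ := model_five A2 (ψ R0) (by rw [← map_mul, hR0, map_one])
    (by rw [hQ, ← map_mul, ← map_mul, hPR, map_zero])
    (by rw [hQ, hA2, ← map_mul, ← map_mul, ← map_mul, hPAR, map_zero])
    (by rw [hQ, hA2', ← map_mul, ← map_mul, ← map_mul, hPRA, map_zero])
  let χ : (Z2 K →L[ℂ] Z2 K)ˣ →* (H →L[ℂ] H)ˣ :=
    Units.map (ψ.symm : (Z2 K →L[ℂ] Z2 K) →* (H →L[ℂ] H))
  have hχ : χ A2 = A := by
    apply Units.ext
    show ψ.symm (ψ A.1) = A.1
    exact ψ.symm_apply_apply _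
  refine ⟨fun i => χ (T i), fun i => ?_, ?_⟩
  · rw [← map_mul, hT, map_one]
  · rw [← hχ, hAT]
    simp only [map_mul]

section Families

variable [CompleteSpace H]

/-- The isometry attached to an orthonormal family. -/
noncomputable def isoOf {S : Type u} {e : S → H} (he : Orthonormal ℂ e) :
    lp (fun _ : S => ℂ) 2 →ₗᵢ[ℂ] H := he.orthogonalFamily.linearIsometry

lemma isoOf_single {S : Type u} [DecidableEq S] {e : S → H} (he : Orthonormal ℂ e) (s : S) :
    isoOf he (lp.single 2 s (1 : ℂ)) = e s := by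
  unfold isoOf
  rw [OrthogonalFamily.linearIsometry_apply_single]
  simp

/-- The isometry as a continuous linear map. -/
noncomputable def cisoOf {S : Type u} {e : S → H} (he : Orthonormal ℂ e) :
    lp (fun _ : S => ℂ) 2 →L[ℂ] H := (isoOf he).toContinuousLinearMap

lemma cisoOf_single {S : Type u} [DecidableEq S] {e : S → H} (he : Orthonormal ℂ e) (s : S) :
    cisoOf he (lp.single 2 s (1 : ℂ)) = e s := isoOf_single he s

lemma adj_self {S : Type u} {e : S → H} (he : Orthonormal ℂ e) (y : lp (fun _ : S => ℂ) 2) :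
    ContinuousLinearMap.adjoint (cisoOf he) (cisoOf he y) = y := by
  apply ext_inner_left ℂ
  intro v
  rw [ContinuousLinearMap.adjoint_inner_right]
  exact (isoOf he).inner_map_map v y

lemma adj_zero {S : Type u} {e : S → H} (he : Orthonormal ℂ e) (x : H)
    (h : ∀ t, inner ℂ (e t) x = 0) : ContinuousLinearMap.adjoint (cisoOf he) x = 0 := by
  classical
  apply lp.ext
  funext t
  have h1 : inner ℂ (lp.single 2 t (1 : ℂ) : lp (fun _ : S => ℂ) 2)
      (ContinuousLinearMap.adjoint (cisoOf he) x) = 0 := by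
    rw [ContinuousLinearMap.adjoint_inner_right, cisoOf_single, h]
  rw [lp.inner_single_left] at h1
  simpa using h1

end Families

lemma exists_equiv_split {α β : Type u} (p : α → Prop) (q : β → Prop)
    (h1 : #{x // p x} = #{y // q y}) (h2 : #{x // ¬ p x} = #{y // ¬ q y}) :
    ∃ ε : α ≃ β, ∀ x, p x ↔ q (ε x) := by
  classical
  obtain ⟨e1⟩ := Cardinal.eq.1 h1
  obtain ⟨e2⟩ := Cardinal.eq.1 h2
  refine ⟨(Equiv.sumCompl p).symm.trans ((Equiv.sumCongr e1 e2).trans (Equiv.sumCompl q)), ?_⟩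
  intro x
  by_cases hx : p x
  · have : (Equiv.sumCompl p).symm x = Sum.inl ⟨x, hx⟩ := Equiv.sumCompl_symm_apply_of_pos hx
    simp only [Equiv.trans_apply, this, Equiv.sumCongr_apply, Sum.map_inl,
      Equiv.sumCompl_apply_inl, hx, true_iff]
    exact (e1 ⟨x, hx⟩).2
  · have : (Equiv.sumCompl p).symm x = Sum.inr ⟨x, hx⟩ := Equiv.sumCompl_symm_apply_of_neg hx
    simp only [Equiv.trans_apply, this, Equiv.sumCongr_apply, Sum.map_inr,
      Equiv.sumCompl_apply_inr, hx, false_iff]
    exact (e2 ⟨x, hx⟩).2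

theorem main [CompleteSpace H] (hH : ¬ FiniteDimensional ℂ H) (A : (H →L[ℂ] H)ˣ) :
    ∃ T : Fin 5 → (H →L[ℂ] H)ˣ, (∀ i, T i * T i = 1) ∧
      A = T 0 * T 1 * T 2 * T 3 * T 4 := by
  classical
  obtain ⟨S, hS⟩ := exists_maximal_good A.1 A.2
  obtain ⟨hinf, hcard⟩ := card_bound hH A.1 A.2 S hS
  obtain ⟨g1, g2, g3⟩ := hS.1
  let e : S → H := fun p => p.1.1
  let f : S → H := fun p => p.1.2
  have he : Orthonormal ℂ e := ⟨fun p => (g1 p p.2).1, fun p q hpq =>
    (g2 p p.2 q q.2 (fun h => hpq (Subtype.ext h))).1⟩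
  have hf : Orthonormal ℂ f := ⟨fun p => (g1 p p.2).2, fun p q hpq =>
    (g2 p p.2 q q.2 (fun h => hpq (Subtype.ext h))).2⟩
  have hef : ∀ p q : S, inner ℂ (e p) (f q) = 0 := fun p q => (g3 p p.2 q q.2).1
  have hfA : ∀ p q : S, inner ℂ (f q) (A.1 (e p)) = 0 := fun p q => (g3 p p.2 q q.2).2.1
  have heB : ∀ p q : S, inner ℂ (e p) (A.2 (f q)) = 0 := fun p q => (g3 p p.2 q q.2).2.2
  -- the Hilbert basis
  let v : S ⊕ S → H := Sum.elim e f
  have hv : Orthonormal ℂ v := by
    refine ⟨?_, ?_⟩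
    · rintro (s | s)
      · exact he.1 s
      · exact hf.1 s
    · rintro (s | s) (t | t) hst
      · exact he.2 (fun h => hst (congrArg Sum.inl h))
      · exact hef s t
      · exact inner_eq_zero_symm.1 (hef t s)
      · exact hf.2 (fun h => hst (congrArg Sum.inr h))
  obtain ⟨w, b, hvw, hb⟩ := hv.toSubtypeRange.exists_hilbertBasis_extension
  have how : Orthonormal ℂ ((↑) : w → H) := by
    have := b.orthonormal
    rwa [hb] at this
  have hw : #w ≤ #S := hcard w how
  have hew : ∀ s, e s ∈ w := fun s => hvw ⟨Sum.inl s, rfl⟩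
  have hfw : ∀ s, f s ∈ w := fun s => hvw ⟨Sum.inr s, rfl⟩
  have haleph : ℵ₀ ≤ #S := Cardinal.aleph0_le_mk S
  let p : w → Prop := fun x => (x : H) ∈ Set.range f
  let q : ℤ × S → Prop := fun x => x.1 ≠ 1
  have hef_ne : ∀ s t, e s ≠ f t := by
    intro s t hst
    have h1 := hef s t
    rw [← hst, inner_self_eq_zero] at h1
    have h2 := he.1 s
    rw [h1, norm_zero] at h2
    exact zero_ne_one h2
  have hcZS : #(ℤ × S) ≤ #S := by
    rw [Cardinal.mk_prod]
    simp only [Cardinal.lift_id, Cardinal.lift_uzero, Cardinal.mk_eq_aleph0]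
    rw [Cardinal.lift_aleph0, Cardinal.aleph0_mul_eq haleph]
  have c1 : #{x // p x} = #S := by
    apply le_antisymm
    · exact (Cardinal.mk_subtype_le p).trans hw
    · refine Cardinal.mk_le_of_injective (f := fun s : S =>
        (⟨⟨f s, hfw s⟩, ⟨s, rfl⟩⟩ : {x // p x})) ?_
      intro s t hst
      apply hf.linearIndependent.injective
      exact congrArg (fun x : {x // p x} => (x.1 : H)) hst
  have c2 : #{x // ¬ p x} = #S := by
    apply le_antisymm
    · exact (Cardinal.mk_subtype_le _).trans hw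
    · refine Cardinal.mk_le_of_injective (f := fun s : S =>
        (⟨⟨e s, hew s⟩, by
          rintro ⟨t, ht⟩
          exact hef_ne s t ht.symm⟩ : {x // ¬ p x})) ?_
      intro s t hst
      apply he.linearIndependent.injective
      exact congrArg (fun x : {x // ¬ p x} => (x.1 : H)) hst
  have c3 : #{x // q x} = #S := by
    apply le_antisymm
    · exact (Cardinal.mk_subtype_le q).trans hcZS
    · refine Cardinal.mk_le_of_injective (f := fun s : S =>
        (⟨(0, s), by show (0 : ℤ) ≠ 1; norm_num⟩ : {x // q x})) ?_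
      intro s t hst
      exact congrArg (fun x : {x // q x} => x.1.2) hst
  have c4 : #{x // ¬ q x} = #S := by
    apply le_antisymm
    · exact (Cardinal.mk_subtype_le _).trans hcZS
    · refine Cardinal.mk_le_of_injective (f := fun s : S =>
        (⟨(1, s), by show ¬ ((1 : ℤ) ≠ 1); norm_num⟩ : {x // ¬ q x})) ?_
      intro s t hst
      exact congrArg (fun x : {x // ¬ q x} => x.1.2) hst
  obtain ⟨ε, hε⟩ := exists_equiv_split p q (c1.trans c3.symm) (c2.trans c4.symm)
  -- basis of the model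
  let K : Type u := lp (fun _ : S => ℂ) 2
  let u : w → Z2 K := fun x => lp.single 2 (ε x).1 (lp.single 2 (ε x).2 (1 : ℂ) : K)
  have hin : ∀ (x : w) (z : Z2 K), inner ℂ (u x) z = (z (ε x).1 : K) (ε x).2 := by
    intro x z
    show inner ℂ (lp.single 2 (ε x).1 (lp.single 2 (ε x).2 (1 : ℂ) : K) : Z2 K) z = _
    rw [lp.inner_single_left, lp.inner_single_left]
    simp
  have hu : Orthonormal ℂ u := by
    rw [orthonormal_iff_ite]
    intro x y
    rw [hin]
    show ((lp.single 2 (ε y).1 (lp.single 2 (ε y).2 (1 : ℂ) : K) : Z2 K) (ε x).1 : K) (ε x).2 = _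
    by_cases hxy : x = y
    · subst hxy
      rw [lp.single_apply_self, lp.single_apply_self, if_pos rfl]
    · rw [if_neg hxy]
      by_cases h1 : (ε x).1 = (ε y).1
      · have h2 : (ε x).2 ≠ (ε y).2 := by
          intro h2
          exact hxy (ε.injective (Prod.ext h1 h2))
        rw [h1, lp.single_apply_self, lp.single_apply_ne _ _ _ h2]
      · rw [lp.single_apply_ne _ _ _ h1]
        rfl
  have hu2 : (Submodule.span ℂ (Set.range u))ᗮ = ⊥ := by
    rw [Submodule.eq_bot_iff]
    intro z hz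
    rw [Submodule.mem_orthogonal] at hz
    apply lp.ext
    funext n
    apply lp.ext
    funext s
    have h1 := hz (u (ε.symm (n, s))) (Submodule.subset_span ⟨_, rfl⟩)
    rw [hin, Equiv.apply_symm_apply] at h1
    exact h1
  let c : HilbertBasis w ℂ (Z2 K) := HilbertBasis.mkOfOrthogonalEqBot hu hu2
  have hc : ∀ x, c x = u x := fun x => by
    rw [HilbertBasis.coe_mkOfOrthogonalEqBot]
  let Φ : H ≃ₗᵢ[ℂ] Z2 K := b.repr.trans c.repr.symm
  have hΦb : ∀ x : w, Φ (x : H) = u x := by
    intro x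
    have h1 : b x = (x : H) := congrFun hb x
    show c.repr.symm (b.repr (x : H)) = u x
    rw [← h1, b.repr_self, c.repr_symm_single, hc]
  -- isometries
  let a0 := cisoOf he
  let b0 := cisoOf hf
  have k3 : ∀ y, ContinuousLinearMap.adjoint a0 (b0 y) = 0 := by
    intro y
    apply adj_zero he
    intro t
    rw [← ContinuousLinearMap.adjoint_inner_left]
    rw [adj_zero hf (e t) (fun s => inner_eq_zero_symm.1 (hef t s)), inner_zero_left]
  have k4 : ∀ y, ContinuousLinearMap.adjoint b0 (a0 y) = 0 := by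
    intro y
    apply adj_zero hf
    intro t
    rw [← ContinuousLinearMap.adjoint_inner_left]
    rw [adj_zero he (f t) (fun s => hef s t), inner_zero_left]
  have k5 : ∀ y, ContinuousLinearMap.adjoint b0 (A.1 (a0 y)) = 0 := by
    intro y
    apply adj_zero hf
    intro t
    rw [← ContinuousLinearMap.adjoint_inner_left, ← ContinuousLinearMap.adjoint_inner_left]
    rw [adj_zero he (ContinuousLinearMap.adjoint A.1 (f t)) (fun s => ?_), inner_zero_left]
    rw [ContinuousLinearMap.adjoint_inner_right]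
    exact inner_eq_zero_symm.1 (hfA s t)
  have k6 : ∀ y, ContinuousLinearMap.adjoint a0 (A.2 (b0 y)) = 0 := by
    intro y
    apply adj_zero he
    intro t
    rw [← ContinuousLinearMap.adjoint_inner_left, ← ContinuousLinearMap.adjoint_inner_left]
    rw [adj_zero hf (ContinuousLinearMap.adjoint A.2 (e t)) (fun s => ?_), inner_zero_left]
    rw [ContinuousLinearMap.adjoint_inner_right]
    exact inner_eq_zero_symm.1 (heB t s)
  refine five_of_data (K := K) A a0 b0 (ContinuousLinearMap.adjoint a0)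
    (ContinuousLinearMap.adjoint b0) (adj_self he) (adj_self hf) k3 k4 k5 k6
    Φ.toContinuousLinearEquiv ?_
  -- compatibility
  have hcl : (Φ.toContinuousLinearEquiv : H →L[ℂ] Z2 K) ∘L (b0 ∘L (ContinuousLinearMap.adjoint b0))
      = (Q 1) ∘L (Φ.toContinuousLinearEquiv : H →L[ℂ] Z2 K) := by
    have hdense : Dense (Submodule.span ℂ (Set.range b) : Set H) :=
      Submodule.dense_iff_topologicalClosure_eq_top.2 b.dense_span
    apply ContinuousLinearMap.ext_on hdense
    rintro _ ⟨x, rfl⟩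
    have h1 : b x = (x : H) := congrFun hb x
    show Φ (b0 (ContinuousLinearMap.adjoint b0 (b x))) = Q 1 (Φ (b x))
    rw [h1, hΦb]
    by_cases hx : p x
    · obtain ⟨s, hs⟩ := hx
      have h2 : b0 (lp.single 2 s (1 : ℂ)) = (x : H) := by
        rw [← hs]; exact cisoOf_single hf s
      have h3 : ContinuousLinearMap.adjoint b0 (x : H) = lp.single 2 s (1 : ℂ) := by
        rw [← h2]; exact adj_self hf _
      rw [h3, h2, hΦb]
      have hq : (ε x).1 ≠ 1 := (hε x).1 ⟨s, hs⟩
      apply lp.ext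
      funext n
      rw [Q_apply]
      split_ifs with hn
      · rw [hn]
        exact lp.single_apply_ne _ _ _ hq.symm
      · rfl
    · have h3 : ContinuousLinearMap.adjoint b0 (x : H) = 0 := by
        apply adj_zero hf
        intro t
        have h4 : (⟨f t, hfw t⟩ : w) ≠ x := by
          intro h
          apply hx
          exact ⟨t, congrArg Subtype.val h⟩
        exact how.2 h4
      rw [h3, map_zero, map_zero]
      have hq : (ε x).1 = 1 := by
        by_contra hcon
        exact hx ((hε x).2 hcon)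
      symm
      apply lp.ext
      funext n
      rw [Q_apply]
      split_ifs with hn
      · rfl
      · refine lp.single_apply_ne _ _ _ ?_
        rw [hq]
        exact hn
  intro x
  exact congrArg (fun T : H →L[ℂ] Z2 K => T x) hcl

end Pool.Agent.Helper43.Inv
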