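import Mathlib

open scoped ENNReal

namespace Pool.Agent.Helper43.Inv

universe u

variable {K : Type u} [NormedAddCommGroup K] [InnerProductSpace ℂ K]

/-- The Hilbert space of square summable two-sided sequences in `K`. -/
abbrev Z2 (K : Type u) [NormedAddCommGroup K] [InnerProductSpace ℂ K] : Type u :=
  lp (fun _ : ℤ => K) 2

lemma two_pos' : (0 : ℝ) < (2 : ℝ≥0∞).toReal := by norm_num

lemma memlp_op (σ : ℤ ≃ ℤ) (a : ℤ → K →L[ℂ] K) (C : ℝ) (hC : ∀ n, ‖a n‖ ≤ C) (f : Z2 K) :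
    Memℓp (fun n => a n (f (σ n))) 2 := by
  have h1 : Summable fun n : ℤ => ‖f n‖ ^ (2 : ℝ≥0∞).toReal := (lp.memℓp f).summable two_pos'
  have h2 : Summable fun n : ℤ => ‖f (σ n)‖ ^ (2 : ℝ≥0∞).toReal :=
    (σ.summable_iff (f := fun n : ℤ => ‖f n‖ ^ (2 : ℝ≥0∞).toReal)).2 h1
  have hC0 : 0 ≤ C := le_trans (norm_nonneg _) (hC 0)
  apply memℓp_gen
  refine Summable.of_nonneg_of_le (fun n => by positivity) (fun n => ?_)
    (h2.mul_left (C ^ (2 : ℝ≥0∞).toReal))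
  rw [← Real.mul_rpow hC0 (norm_nonneg _)]
  apply Real.rpow_le_rpow (norm_nonneg _) _ (le_of_lt two_pos')
  exact le_trans ((a n).le_opNorm _) (mul_le_mul_of_nonneg_right (hC n) (norm_nonneg _))

/-- The operator `f ↦ (a n (f (σ n)))_n`. -/
noncomputable def op (σ : ℤ ≃ ℤ) (a : ℤ → K →L[ℂ] K) (C : ℝ) (hC : ∀ n, ‖a n‖ ≤ C) :
    Z2 K →L[ℂ] Z2 K :=
  LinearMap.mkContinuous
    { toFun := fun f => ⟨fun n => a n (f (σ n)), memlp_op σ a C hC f⟩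
      map_add' := by
        intro f g
        apply lp.ext
        funext n
        exact (a n).map_add (f (σ n)) (g (σ n))
      map_smul' := by
        intro c f
        apply lp.ext
        funext n
        exact (a n).map_smul c (f (σ n)) } C (by
    intro f
    have hC0 : 0 ≤ C := le_trans (norm_nonneg _) (hC 0)
    have h1 : Summable fun n : ℤ => ‖f n‖ ^ (2 : ℝ≥0∞).toReal := (lp.memℓp f).summable two_pos'
    have h2 : Summable fun n : ℤ => ‖f (σ n)‖ ^ (2 : ℝ≥0∞).toReal :=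
      (σ.summable_iff (f := fun n : ℤ => ‖f n‖ ^ (2 : ℝ≥0∞).toReal)).2 h1
    apply lp.norm_le_of_tsum_le two_pos' (by positivity)
    rw [Real.mul_rpow hC0 (norm_nonneg _), lp.norm_rpow_eq_tsum two_pos' f,
      ← σ.tsum_eq (fun n : ℤ => ‖f n‖ ^ (2 : ℝ≥0∞).toReal), ← tsum_mul_left]
    have h3 : ∀ n : ℤ, ‖a n (f (σ n))‖ ^ (2 : ℝ≥0∞).toReal ≤
        C ^ (2 : ℝ≥0∞).toReal * ‖f (σ n)‖ ^ (2 : ℝ≥0∞).toReal := by
      intro n
      rw [← Real.mul_rpow hC0 (norm_nonneg _)]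
      apply Real.rpow_le_rpow (norm_nonneg _) _ (le_of_lt two_pos')
      exact le_trans ((a n).le_opNorm _) (mul_le_mul_of_nonneg_right (hC n) (norm_nonneg _))
    exact Summable.tsum_le_tsum h3
      (Summable.of_nonneg_of_le (fun n => by positivity) h3
        (h2.mul_left (C ^ (2 : ℝ≥0∞).toReal))) (h2.mul_left (C ^ (2 : ℝ≥0∞).toReal)))

@[simp] lemma op_apply (σ : ℤ ≃ ℤ) (a : ℤ → K →L[ℂ] K) (C : ℝ) (hC : ∀ n, ‖a n‖ ≤ C)
    (f : Z2 K) (n : ℤ) : (op σ a C hC f : ∀ _ : ℤ, K) n = a n (f (σ n)) := rfl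

lemma ext_op {X Y : Z2 K →L[ℂ] Z2 K} (h : ∀ f n, (X f : ∀ _ : ℤ, K) n = (Y f : ∀ _ : ℤ, K) n) :
    X = Y := by
  ext1 f
  apply lp.ext
  funext n
  exact h f n

/-- First flip. -/
noncomputable def Fop (δ : (K →L[ℂ] K)ˣ) : Z2 K →L[ℂ] Z2 K :=
  op (Equiv.subLeft (1 : ℤ)) (fun n => if 1 ≤ n then (δ : K →L[ℂ] K) else ((δ⁻¹ : (K →L[ℂ] K)ˣ) : K →L[ℂ] K))
    (max ‖(δ : K →L[ℂ] K)‖ ‖((δ⁻¹ : (K →L[ℂ] K)ˣ) : K →L[ℂ] K)‖) (by
      intro n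
      split_ifs
      · exact le_max_left _ _
      · exact le_max_right _ _)

/-- Second flip. -/
noncomputable def Gop (δ : (K →L[ℂ] K)ˣ) : Z2 K →L[ℂ] Z2 K :=
  op (Equiv.neg ℤ) (fun n => if 1 ≤ n then (δ : K →L[ℂ] K) else
      if n = 0 then 1 else ((δ⁻¹ : (K →L[ℂ] K)ˣ) : K →L[ℂ] K))
    (max 1 (max ‖(δ : K →L[ℂ] K)‖ ‖((δ⁻¹ : (K →L[ℂ] K)ˣ) : K →L[ℂ] K)‖)) (by
      intro n
      split_ifs
      · exact le_max_of_le_right (le_max_left _ _)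
      · exact le_max_of_le_left (ContinuousLinearMap.norm_id_le)
      · exact le_max_of_le_right (le_max_right _ _))

lemma unit_apply_inv (δ : (K →L[ℂ] K)ˣ) (x : K) :
    (δ : K →L[ℂ] K) (((δ⁻¹ : (K →L[ℂ] K)ˣ) : K →L[ℂ] K) x) = x := by
  exact congrArg (fun T : K →L[ℂ] K => T x) δ.mul_inv

lemma unit_inv_apply (δ : (K →L[ℂ] K)ˣ) (x : K) :
    (((δ⁻¹ : (K →L[ℂ] K)ˣ) : K →L[ℂ] K)) ((δ : K →L[ℂ] K) x) = x := by
  exact congrArg (fun T : K →L[ℂ] K => T x) δ.inv_mul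

lemma Fop_sq (δ : (K →L[ℂ] K)ˣ) : Fop δ * Fop δ = 1 := by
  apply ext_op
  intro f n
  show (if 1 ≤ n then (δ : K →L[ℂ] K) else ((δ⁻¹ : (K →L[ℂ] K)ˣ) : K →L[ℂ] K))
    ((if 1 ≤ 1 - n then (δ : K →L[ℂ] K) else ((δ⁻¹ : (K →L[ℂ] K)ˣ) : K →L[ℂ] K)) (f (1 - (1 - n))))
    = f n
  rw [sub_sub_cancel]
  by_cases h : 1 ≤ n
  · have h' : ¬ (1 ≤ 1 - n) := by omega
    rw [if_pos h, if_neg h', unit_apply_inv]
  · have h' : 1 ≤ 1 - n := by omega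
    rw [if_neg h, if_pos h', unit_inv_apply]

lemma Gop_sq (δ : (K →L[ℂ] K)ˣ) : Gop δ * Gop δ = 1 := by
  apply ext_op
  intro f n
  show (if 1 ≤ n then (δ : K →L[ℂ] K) else if n = 0 then 1 else ((δ⁻¹ : (K →L[ℂ] K)ˣ) : K →L[ℂ] K))
    ((if 1 ≤ -n then (δ : K →L[ℂ] K) else if -n = 0 then 1 else
      ((δ⁻¹ : (K →L[ℂ] K)ˣ) : K →L[ℂ] K)) (f (- -n)))
    = f n
  rw [neg_neg]
  rcases lt_trichotomy n 0 with h | h | h
  · have h1 : ¬ (1 ≤ n) := by omega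
    have h2 : ¬ (n = 0) := by omega
    have h3 : 1 ≤ -n := by omega
    rw [if_neg h1, if_neg h2, if_pos h3, unit_inv_apply]
  · subst h
    simp
  · have h1 : (1 ≤ n) := by omega
    have h3 : ¬ (1 ≤ -n) := by omega
    have h4 : ¬ (-n = 0) := by omega
    rw [if_pos h1, if_neg h3, if_neg h4, unit_apply_inv]

lemma Fop_mul_Gop (δ : (K →L[ℂ] K)ˣ) (f : Z2 K) (n : ℤ) :
    ((Fop δ * Gop δ) f : ∀ _ : ℤ, K) n = if n = 1 then (δ : K →L[ℂ] K) (f 0) else f (n - 1) := by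
  show (if 1 ≤ n then (δ : K →L[ℂ] K) else ((δ⁻¹ : (K →L[ℂ] K)ˣ) : K →L[ℂ] K))
    ((if 1 ≤ 1 - n then (δ : K →L[ℂ] K) else if 1 - n = 0 then 1 else
      ((δ⁻¹ : (K →L[ℂ] K)ˣ) : K →L[ℂ] K)) (f (- (1 - n)))) = _
  rw [neg_sub]
  rcases lt_trichotomy n 1 with h | h | h
  · have h1 : ¬ (1 ≤ n) := by omega
    have h2 : (1 ≤ 1 - n) := by omega
    have h3 : n ≠ 1 := by omega
    rw [if_neg h1, if_pos h2, if_neg h3, unit_inv_apply]
  · subst h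
    simp
  · have h1 : (1 ≤ n) := by omega
    have h2 : ¬ (1 ≤ 1 - n) := by omega
    have h3 : ¬ (1 - n = 0) := by omega
    have h4 : n ≠ 1 := by omega
    rw [if_pos h1, if_neg h2, if_neg h3, if_neg h4, unit_apply_inv]

/-- A bilateral shift with one arbitrary weight is a product of two involutions. -/
theorem shift_prod (S : (Z2 K →L[ℂ] Z2 K)ˣ)
    (h1 : ∀ (f : Z2 K) (n : ℤ), n ≠ 1 → ((S : Z2 K →L[ℂ] Z2 K) f : ∀ _ : ℤ, K) n = f (n - 1))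
    (h2 : ∀ f : Z2 K, f 0 = 0 → ((S : Z2 K →L[ℂ] Z2 K) f : ∀ _ : ℤ, K) 1 = 0) :
    ∃ F G : Z2 K →L[ℂ] Z2 K, F * F = 1 ∧ G * G = 1 ∧ F * G = (S : Z2 K →L[ℂ] Z2 K) := by
  classical
  let S0 : Z2 K →L[ℂ] Z2 K := S
  let S1 : Z2 K →L[ℂ] Z2 K := ((S⁻¹ : (Z2 K →L[ℂ] Z2 K)ˣ) : Z2 K →L[ℂ] Z2 K)
  have hSS : ∀ f, S0 (S1 f) = f := fun f =>
    congrArg (fun T : Z2 K →L[ℂ] Z2 K => T f) S.mul_inv
  have hSS' : ∀ f, S1 (S0 f) = f := fun f =>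
    congrArg (fun T : Z2 K →L[ℂ] Z2 K => T f) S.inv_mul
  let δ0 : K →L[ℂ] K := (lp.evalCLM ℂ (fun _ : ℤ => K) 2 1) ∘L S0 ∘L
    (lp.singleContinuousLinearMap ℂ (fun _ : ℤ => K) 2 0)
  let δ1 : K →L[ℂ] K := (lp.evalCLM ℂ (fun _ : ℤ => K) 2 0) ∘L S1 ∘L
    (lp.singleContinuousLinearMap ℂ (fun _ : ℤ => K) 2 1)
  have hδ0 : ∀ x, δ0 x = (S0 (lp.single 2 0 x) : ∀ _ : ℤ, K) 1 := fun x => rfl
  have hδ1 : ∀ x, δ1 x = (S1 (lp.single 2 1 x) : ∀ _ : ℤ, K) 0 := fun x => rfl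
  have e1 : ∀ x, S0 (lp.single 2 0 x) = lp.single 2 1 (δ0 x) := by
    intro x
    apply lp.ext
    funext n
    by_cases hn : n = 1
    · subst hn
      rw [lp.single_apply_self, hδ0]
    · rw [h1 _ _ hn, lp.single_apply_ne _ _ _ hn, lp.single_apply_ne]
      omega
  have e2 : ∀ x, S1 (lp.single 2 1 x) = lp.single 2 0 (δ1 x) := by
    intro x
    apply lp.ext
    funext n
    by_cases hn : n = 0
    · subst hn
      rw [lp.single_apply_self, hδ1]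
    · rw [lp.single_apply_ne _ _ _ hn]
      have h3 := h1 (S1 (lp.single 2 1 x)) (n + 1) (by omega)
      have h4 : ((S : Z2 K →L[ℂ] Z2 K) (S1 (lp.single 2 1 x)) : ∀ _ : ℤ, K) (n + 1) = 0 := by
        have : (S : Z2 K →L[ℂ] Z2 K) (S1 (lp.single 2 1 x)) = lp.single 2 1 x := hSS _
        rw [this, lp.single_apply_ne]
        omega
      rw [h4, add_sub_cancel_right] at h3
      exact h3.symm
  have d01 : δ0 * δ1 = 1 := by
    ext x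
    show δ0 (δ1 x) = x
    have := hSS (lp.single 2 1 x)
    rw [e2, e1] at this
    have h5 := congrArg (fun g : Z2 K => (g : ∀ _ : ℤ, K) 1) this
    simpa [lp.single_apply_self] using h5
  have d10 : δ1 * δ0 = 1 := by
    ext x
    show δ1 (δ0 x) = x
    have := hSS' (lp.single 2 0 x)
    rw [e1, e2] at this
    have h5 := congrArg (fun g : Z2 K => (g : ∀ _ : ℤ, K) 0) this
    simpa [lp.single_apply_self] using h5
  let δ : (K →L[ℂ] K)ˣ := ⟨δ0, δ1, d01, d10⟩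
  refine ⟨Fop δ, Gop δ, Fop_sq δ, Gop_sq δ, ?_⟩
  apply ext_op
  intro f n
  rw [Fop_mul_Gop]
  by_cases hn : n = 1
  · subst hn
    rw [if_pos rfl]
    have h6 := h2 (f - lp.single 2 0 (f 0)) (by
      rw [lp.coeFn_sub, Pi.sub_apply, lp.single_apply_self, sub_self])
    rw [map_sub, lp.coeFn_sub, Pi.sub_apply, sub_eq_zero] at h6
    rw [h6]
    rfl
  · rw [if_neg hn, h1 _ _ hn]

end Pool.Agent.Helper43.Inv
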